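import Mathlib

/-!
Discrete Nikodym blocks (helper27, MP_90d669_co).

A block of length w and height H is a finite set U of triples (i, t, s): a point at time i and
height t with velocity s, such that the flight of the point (with a small downward error e)
stays in the block until time w and never meets a position of the block again.
-/

namespace Pool.Agent.H27.NK

/-- Discrete Nikodym block. -/
structure Blk (w H K : ℤ) (U : Finset (ℤ × ℤ × ℤ)) : Prop where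
  col0 : ∀ p ∈ U, 0 ≤ p.1
  col1 : ∀ p ∈ U, p.1 < w
  hgt0 : ∀ p ∈ U, 0 ≤ p.2.1
  hgt1 : ∀ p ∈ U, p.2.1 < H
  vel : ∀ p ∈ U, |p.2.2| ≤ K
  inj : ∀ p ∈ U, ∀ q ∈ U, p.1 = q.1 → p.2.1 = q.2.1 → p = q
  fly0 : ∀ p ∈ U, ∀ m e : ℤ, 1 ≤ m → p.1 + m < w → 0 ≤ e → e ≤ m ^ 2 →
    0 ≤ p.2.1 + p.2.2 * m - e
  fly1 : ∀ p ∈ U, ∀ m e : ℤ, 1 ≤ m → p.1 + m < w → 0 ≤ e → e ≤ m ^ 2 →
    p.2.1 + p.2.2 * m - e < H
  fly : ∀ p ∈ U, ∀ m e : ℤ, 1 ≤ m → p.1 + m < w → 0 ≤ e → e ≤ m ^ 2 →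
    ∀ q ∈ U, q.1 = p.1 + m → q.2.1 ≠ p.2.1 + p.2.2 * m - e

/-- The cells of the design: 14 slabs, height 1792, velocities 9, -9, 0. -/
def upCells : Finset (ℤ × ℤ × ℤ) :=
  (((Finset.range 14) ×ˢ ((Finset.range 11) ×ˢ (Finset.range 8))).image
    fun a => ((a.1 : ℤ), (135 + 152 * (a.2.1 : ℤ) + (a.2.2 : ℤ)), (9 : ℤ)))

def downCells : Finset (ℤ × ℤ × ℤ) :=
  (((Finset.range 14) ×ˢ ((Finset.range 11) ×ˢ (Finset.range 8))).image
    fun a => ((a.1 : ℤ), (134 + 152 * (a.2.1 : ℤ) - (a.2.2 : ℤ)), (-9 : ℤ)))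

def restCells : Finset (ℤ × ℤ × ℤ) :=
  (((Finset.range 12) ×ˢ (Finset.range 116)).image
    fun a => ((0 : ℤ), (1 + 152 * (a.1 : ℤ) + (a.2 : ℤ)), (0 : ℤ)))

def cells : Finset (ℤ × ℤ × ℤ) := upCells ∪ (downCells ∪ restCells)

/-- Description of a cell. -/
def IsCell (i h u : ℤ) : Prop :=
  (∃ p x : ℤ, 0 ≤ i ∧ i < 14 ∧ 0 ≤ p ∧ p < 11 ∧ 0 ≤ x ∧ x < 8 ∧ h = 135 + 152 * p + x ∧ u = 9) ∨
  (∃ p x : ℤ, 0 ≤ i ∧ i < 14 ∧ 0 ≤ p ∧ p < 11 ∧ 0 ≤ x ∧ x < 8 ∧ h = 134 + 152 * p - x ∧ u = -9) ∨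
  (∃ p x : ℤ, i = 0 ∧ 0 ≤ p ∧ p < 12 ∧ 0 ≤ x ∧ x < 116 ∧ h = 1 + 152 * p + x ∧ u = 0)

theorem isCell_of_mem {c : ℤ × ℤ × ℤ} (hc : c ∈ cells) : IsCell c.1 c.2.1 c.2.2 := by
  unfold cells upCells downCells restCells at hc
  rcases Finset.mem_union.1 hc with h | h
  · obtain ⟨a, ha, rfl⟩ := Finset.mem_image.1 h
    simp only [Finset.mem_product, Finset.mem_range] at ha
    left
    refine ⟨a.2.1, a.2.2, ?_, ?_, ?_, ?_, ?_, ?_, rfl, rfl⟩ <;> (try dsimp only) <;> omega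
  · rcases Finset.mem_union.1 h with h | h
    · obtain ⟨a, ha, rfl⟩ := Finset.mem_image.1 h
      simp only [Finset.mem_product, Finset.mem_range] at ha
      right; left
      refine ⟨a.2.1, a.2.2, ?_, ?_, ?_, ?_, ?_, ?_, rfl, rfl⟩ <;> (try dsimp only) <;> omega
    · obtain ⟨a, ha, rfl⟩ := Finset.mem_image.1 h
      simp only [Finset.mem_product, Finset.mem_range] at ha
      right; right
      refine ⟨a.1, a.2, rfl, ?_, ?_, ?_, ?_, rfl, rfl⟩ <;> omega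

theorem card_upCells : upCells.card = 1232 := by
  unfold upCells
  rw [Finset.card_image_of_injOn]
  · simp
  · intro a ha b hb hab
    simp only [Finset.coe_product, Finset.coe_range, Set.mem_prod, Set.mem_Iio] at ha hb
    simp only [Prod.mk.injEq] at hab
    obtain ⟨h1, h2, -⟩ := hab
    ext
    · omega
    · omega
    · omega

theorem card_downCells : downCells.card = 1232 := by
  unfold downCells
  rw [Finset.card_image_of_injOn]
  · simp
  · intro a ha b hb hab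
    simp only [Finset.coe_product, Finset.coe_range, Set.mem_prod, Set.mem_Iio] at ha hb
    simp only [Prod.mk.injEq] at hab
    obtain ⟨h1, h2, -⟩ := hab
    ext
    · omega
    · omega
    · omega

theorem card_restCells : restCells.card = 1392 := by
  unfold restCells
  rw [Finset.card_image_of_injOn]
  · simp
  · intro a ha b hb hab
    simp only [Finset.coe_product, Finset.coe_range, Set.mem_prod, Set.mem_Iio] at ha hb
    simp only [Prod.mk.injEq] at hab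
    obtain ⟨-, h2, -⟩ := hab
    ext
    · omega
    · omega

theorem card_cells : cells.card = 3856 := by
  unfold cells
  rw [Finset.card_union_of_disjoint, Finset.card_union_of_disjoint, card_upCells, card_downCells,
    card_restCells]
  · rw [Finset.disjoint_left]
    intro c h1 h2
    obtain ⟨a, -, rfl⟩ := Finset.mem_image.1 h1
    obtain ⟨b, -, hb⟩ := Finset.mem_image.1 h2
    simp only [Prod.mk.injEq] at hb
    omega
  · rw [Finset.disjoint_left]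
    intro c h1 h2
    obtain ⟨a, -, rfl⟩ := Finset.mem_image.1 h1
    rcases Finset.mem_union.1 h2 with h2 | h2
    · obtain ⟨b, -, hb⟩ := Finset.mem_image.1 h2
      simp only [Prod.mk.injEq] at hb
      omega
    · obtain ⟨b, -, hb⟩ := Finset.mem_image.1 h2
      simp only [Prod.mk.injEq] at hb
      omega

/-- Two different cells of one slab are disjoint while they move. -/
theorem cells_active {i h u h' u' : ℤ} (c : IsCell i h u) (c' : IsCell i h' u')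
    (hne : ¬ (h = h' ∧ u = u')) :
    (h + 1 ≤ h' ∧ h + u + 1 ≤ h' + u') ∨ (h' + 1 ≤ h ∧ h' + u' + 1 ≤ h + u) := by
  rcases c with ⟨p, x, c⟩ | ⟨p, x, c⟩ | ⟨p, x, c⟩ <;>
  rcases c' with ⟨p', x', c'⟩ | ⟨p', x', c'⟩ | ⟨p', x', c'⟩ <;>
  rcases lt_trichotomy p p' with hp | hp | hp <;>
  first
    | (left; omega)
    | (right; omega)
    | (subst hp; rcases lt_trichotomy x x' with hx | hx | hx <;> omega)

/-- The flight of a cell avoids the active cells of later slabs. -/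
theorem cells_shadow {i h u j h' u' : ℤ} (c : IsCell i h u) (c' : IsCell j h' u') (hij : i < j) :
    (h + u * (j - i) + 2 ≤ h' ∧ h + u * (j - i) + u + 2 ≤ h' + u') ∨
    (h' + 2 ≤ h + u * (j - i) ∧ h' + u' + 2 ≤ h + u * (j - i) + u) := by
  rcases c with ⟨p, x, h0, h1, h2, h3, h4, h5, rfl, rfl⟩ | ⟨p, x, h0, h1, h2, h3, h4, h5, rfl, rfl⟩
    | ⟨p, x, h1, h2, h3, h4, h5, rfl, rfl⟩ <;>
  rcases c' with ⟨p', x', g0, g1, g2, g3, g4, g5, rfl, rfl⟩ |
    ⟨p', x', g0, g1, g2, g3, g4, g5, rfl, rfl⟩ | ⟨p', x', g1, g2, g3, g4, g5, rfl, rfl⟩ <;>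
  rcases lt_trichotomy p p' with hp | hp | hp <;>
  first
    | (left; omega)
    | (right; omega)
    | (exfalso; omega)
    | (subst hp; left; omega)
    | (subst hp; right; omega)

theorem cells_range {i h u : ℤ} (c : IsCell i h u) :
    0 ≤ i ∧ i < 14 ∧ 0 ≤ h ∧ 0 ≤ h + u ∧ h + 1 ≤ 1792 ∧ h + u + 1 ≤ 1792 := by
  rcases c with ⟨p, x, h0, h1, h2, h3, h4, h5, rfl, rfl⟩ | ⟨p, x, h0, h1, h2, h3, h4, h5, rfl, rfl⟩
    | ⟨p, x, h1, h2, h3, h4, h5, rfl, rfl⟩ <;> omega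

theorem cells_range_shadow {i h u j : ℤ} (c : IsCell i h u) (hij : i < j) (hj : j < 14) :
    0 ≤ h + u * (j - i) - 1 ∧ 0 ≤ h + u * (j - i) + u - 1 ∧
    h + u * (j - i) + 2 ≤ 1792 ∧ h + u * (j - i) + u + 2 ≤ 1792 := by
  rcases c with ⟨p, x, h0, h1, h2, h3, h4, h5, rfl, rfl⟩ | ⟨p, x, h0, h1, h2, h3, h4, h5, rfl, rfl⟩
    | ⟨p, x, h1, h2, h3, h4, h5, rfl, rfl⟩ <;> omega

theorem cells_vel {i h u : ℤ} (c : IsCell i h u) : |u| ≤ 9 := by
  rcases c with ⟨p, x, h0, h1, h2, h3, h4, h5, rfl, rfl⟩ | ⟨p, x, h0, h1, h2, h3, h4, h5, rfl, rfl⟩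
    | ⟨p, x, h1, h2, h3, h4, h5, rfl, rfl⟩ <;> norm_num

end Pool.Agent.H27.NK
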