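import Pool.Agent.H27.NK.Step

/-! Discrete Nikodym sets in cyclic groups: existence with polynomial modulus. -/

namespace Pool.Agent.H27.NK

/-- Existence of blocks: w = 14^n, H = g w, g = 32768 * 128^n. -/
theorem exists_blk (n : ℕ) : ∃ (U : Finset (ℤ × ℤ × ℤ)) (K : ℤ), 0 ≤ K ∧
    127 * K ≤ 9 * (32768 * 128 ^ n) ∧ U.card = 3856 ^ n * 32768 ∧
    Blk (14 ^ n) (32768 * 128 ^ n * 14 ^ n) K U := by
  classical
  induction n with
  | zero =>
    let f : ℕ → ℤ × ℤ × ℤ := fun t => ((0 : ℤ), (t : ℤ), (0 : ℤ))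
    obtain ⟨M, hM⟩ : ∃ M : ℕ, M = 32768 := ⟨_, rfl⟩
    rw [← hM]
    have hMz : (32768 : ℤ) = (M : ℤ) := by rw [hM]; norm_num
    rw [hMz]
    refine ⟨(Finset.range M).image f, 0, le_refl _, by positivity, ?_, ?_⟩
    · rw [Finset.card_image_of_injective, Finset.card_range]
      · simp
      · intro a b hab
        simp only [f, Prod.mk.injEq] at hab
        exact_mod_cast hab.2.1
    · constructor
      · intro p hp
        obtain ⟨t, -, rfl⟩ := Finset.mem_image.1 hp
        simp [f]
      · intro p hp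
        obtain ⟨t, -, rfl⟩ := Finset.mem_image.1 hp
        simp [f]
      · intro p hp
        obtain ⟨t, -, rfl⟩ := Finset.mem_image.1 hp
        simp [f]
      · intro p hp
        obtain ⟨t, ht, rfl⟩ := Finset.mem_image.1 hp
        have := Finset.mem_range.1 ht
        simp only [pow_zero, mul_one, f]
        exact_mod_cast this
      · intro p hp
        obtain ⟨t, -, rfl⟩ := Finset.mem_image.1 hp
        simp [f]
      · intro p hp q hq h1 h2
        obtain ⟨t, -, rfl⟩ := Finset.mem_image.1 hp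
        obtain ⟨s, -, rfl⟩ := Finset.mem_image.1 hq
        simp only [f] at h2 ⊢
        rw [h2]
      all_goals
        intro p hp m e hm hlt
        obtain ⟨t, -, rfl⟩ := Finset.mem_image.1 hp
        simp only [pow_zero, f] at hlt
        omega
  | succ n ih =>
    obtain ⟨U, K, hK, hK2, hcard, hU⟩ := ih
    have hpow : (14 : ℤ) ^ n ≤ 128 ^ n := pow_le_pow_left₀ (by norm_num) (by norm_num) n
    have h14 : (1 : ℤ) ≤ 14 ^ n := one_le_pow₀ (by norm_num)
    have h128 : (1 : ℤ) ≤ 128 ^ n := one_le_pow₀ (by norm_num)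
    obtain ⟨V, hV, hB⟩ := step (w := 14 ^ n) (g := 32768 * 128 ^ n) (K := K) (U := U) h14
      (by positivity) hK (by
        have h1 : K * 14 + 196 * 14 ^ n ≤ 32768 * 128 ^ n := by linarith
        nlinarith [mul_le_mul_of_nonneg_right h1 (show (0 : ℤ) ≤ 14 ^ n by positivity)]) hU
    refine ⟨V, 9 * (32768 * 128 ^ n) + K, by positivity, ?_, ?_, ?_⟩
    · rw [pow_succ]
      linarith
    · rw [hV, hcard, pow_succ]
      ring
    · have e1 : (14 : ℤ) * 14 ^ n = 14 ^ (n + 1) := by rw [pow_succ]; ring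
      have e2 : (1792 : ℤ) * (32768 * 128 ^ n * 14 ^ n) = 32768 * 128 ^ (n + 1) * 14 ^ (n + 1) := by
        rw [pow_succ, pow_succ]; ring
      rw [e1, e2] at hB
      exact hB

/-- Discrete Nikodym sets: N = 6 w H, w = 14^n, H = 32768 * 1792^n. -/
theorem nikodym (n : ℕ) : ∃ (R : Finset ℤ) (a : ℤ → ℤ), R.card = 3856 ^ n * 32768 ∧
    (∀ r ∈ R, 0 ≤ r ∧ r < 196608 * 25088 ^ n) ∧
    (∀ r, 0 ≤ a r ∧ a r < 196608 * 25088 ^ n) ∧
    ∀ r ∈ R, ∀ r' ∈ R, ∀ m e : ℤ, 1 ≤ m → m ≤ 14 ^ n → 0 ≤ e → e ≤ m ^ 2 →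
      ¬ (r' ≡ r + m * a r - e [ZMOD (196608 * 25088 ^ n)]) := by
  classical
  obtain ⟨U, K, hK, hK2, hcard, hU⟩ := exists_blk n
  have hpow : (14 : ℤ) ^ n ≤ 128 ^ n := pow_le_pow_left₀ (by norm_num) (by norm_num) n
  set w : ℤ := 14 ^ n with hw
  set g : ℤ := 32768 * 128 ^ n with hg
  have hw1 : 1 ≤ w := one_le_pow₀ (by norm_num)
  have hg1 : 32768 * w ≤ g := by rw [hg]; linarith
  set H : ℤ := g * w with hH
  have hN : (196608 : ℤ) * 25088 ^ n = 6 * w * H := by
    rw [hH, hw, hg, show (25088 : ℤ) = 14 * 128 * 14 by norm_num, mul_pow, mul_pow]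
    ring
  rw [hN]
  have hH0 : 0 < H := mul_pos (by linarith) (by linarith)
  have hwH : 32768 * w ^ 2 ≤ H := by rw [hH]; nlinarith
  have hKH : K * w * 127 ≤ 9 * H := by rw [hH]; nlinarith
  have hKlt : K ≤ H := by nlinarith
  -- the code of a point
  let code : ℤ × ℤ × ℤ → ℤ := fun p => p.1 * (3 * H) + (H + p.2.1)
  have hcode : ∀ p ∈ U, ∀ q ∈ U, code p = code q → p = q := by
    intro p hp q hq h
    have := hU.hgt0 p hp
    have := hU.hgt1 p hp
    have := hU.hgt0 q hq
    have := hU.hgt1 q hq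
    obtain ⟨h1, h2⟩ := euclid_unique h (by linarith) (by linarith) (by linarith) (by linarith)
    exact hU.inj p hp q hq h1 (by linarith)
  -- velocity of a code
  let vel : ℤ → ℤ := fun r => if h : ∃ p ∈ U, code p = r then h.choose.2.2 else 0
  have hvel : ∀ p ∈ U, vel (code p) = p.2.2 := by
    intro p hp
    have hex : ∃ q ∈ U, code q = code p := ⟨p, hp, rfl⟩
    have h1 := hex.choose_spec
    have h2 : hex.choose = p := hcode _ h1.1 _ hp h1.2
    simp only [vel]
    rw [dif_pos hex, h2]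
  have hvelK : ∀ r, |vel r| ≤ K := by
    intro r
    by_cases hex : ∃ p ∈ U, code p = r
    · obtain ⟨p, hp, rfl⟩ := hex
      rw [hvel p hp]
      exact hU.vel p hp
    · simp only [vel]
      rw [dif_neg hex]
      simpa using hK
  refine ⟨U.image code, fun r => 3 * H + vel r, ?_, ?_, ?_, ?_⟩
  · rw [Finset.card_image_of_injOn, hcard]
    intro p hp q hq h
    exact hcode p hp q hq h
  · intro r hr
    obtain ⟨p, hp, rfl⟩ := Finset.mem_image.1 hr
    have h0 := hU.hgt0 p hp
    have h1 := hU.hgt1 p hp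
    have h2 := hU.col0 p hp
    have h3 := hU.col1 p hp
    simp only [code]
    constructor
    · have := mul_nonneg h2 (show 0 ≤ 3 * H by linarith)
      linarith
    · have := mul_le_mul_of_nonneg_right (show p.1 ≤ w - 1 by linarith) (show 0 ≤ 3 * H by linarith)
      nlinarith
  · intro r
    have := abs_le.1 (hvelK r)
    constructor
    · linarith
    · have : (1 : ℤ) * H ≤ w * H := mul_le_mul_of_nonneg_right hw1 hH0.le
      nlinarith
  · intro r hr r' hr' m e hm hmw he he2 hcon
    obtain ⟨p, hp, rfl⟩ := Finset.mem_image.1 hr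
    obtain ⟨q, hq, rfl⟩ := Finset.mem_image.1 hr'
    simp only [hvel p hp] at hcon
    have h0 := hU.hgt0 p hp
    have h1 := hU.hgt1 p hp
    have h2 := hU.col0 p hp
    have h3 := hU.col1 p hp
    have k0 := hU.hgt0 q hq
    have k1 := hU.hgt1 q hq
    have k2 := hU.col0 q hq
    have k3 := hU.col1 q hq
    have hv := hU.vel p hp
    have hvm : |p.2.2 * m| ≤ K * w := by
      rw [abs_mul, abs_of_nonneg (show (0 : ℤ) ≤ m by linarith)]
      exact mul_le_mul hv hmw (by linarith) hK
    have hvm' := abs_le.1 hvm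
    have hm2 : m ^ 2 ≤ w ^ 2 := pow_le_pow_left₀ (by linarith) hmw 2
    set t' : ℤ := p.2.1 + p.2.2 * m - e with ht'
    have hval : code p + m * (3 * H + p.2.2) - e = (p.1 + m) * (3 * H) + (H + t') := by
      simp only [code, ht']
      ring
    have t0 : 0 ≤ H + t' := by linarith
    have t1 : H + t' < 3 * H := by linarith
    rw [hval] at hcon
    have hlt1 : code q < 6 * w * H := by
      simp only [code]
      have := mul_le_mul_of_nonneg_right (show q.1 ≤ w - 1 by linarith) (show 0 ≤ 3 * H by linarith)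
      nlinarith
    have hge1 : 0 ≤ code q := by
      simp only [code]
      have := mul_nonneg k2 (show 0 ≤ 3 * H by linarith)
      linarith
    have hlt2 : (p.1 + m) * (3 * H) + (H + t') < 6 * w * H := by
      have := mul_le_mul_of_nonneg_right (show p.1 + m ≤ 2 * w - 1 by linarith)
        (show 0 ≤ 3 * H by linarith)
      nlinarith
    have hge2 : 0 ≤ (p.1 + m) * (3 * H) + (H + t') := by
      have := mul_nonneg (show 0 ≤ p.1 + m by linarith) (show 0 ≤ 3 * H by linarith)
      linarith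
    have heq : code q = (p.1 + m) * (3 * H) + (H + t') := by
      have := hcon
      unfold Int.ModEq at this
      rwa [Int.emod_eq_of_lt hge1 hlt1, Int.emod_eq_of_lt hge2 hlt2] at this
    simp only [code] at heq
    obtain ⟨e1, e2⟩ := euclid_unique heq (by linarith) (by linarith) t0 t1
    exact hU.fly p hp m e hm (by linarith) he he2 q hq e1 (by linarith)

end Pool.Agent.H27.NK
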