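import Pool.Agent.H27.NK.Block

/-! The block recursion. -/

namespace Pool.Agent.H27.NK

attribute [local irreducible] cells

theorem interp {A B w j : ℤ} (hA : 0 ≤ A) (hAB : 0 ≤ A + B) (hj0 : 0 ≤ j) (hj1 : j ≤ w) :
    0 ≤ A * w + B * j := by
  nlinarith [mul_nonneg hA (sub_nonneg.2 hj1), mul_nonneg hAB hj0]

/-- Separation of two moving cells. -/
theorem sep {h u h' u' g w j d d' lo hi : ℤ} (hg : 0 < g) (hj0 : 0 ≤ j) (hj1 : j ≤ w)
    (h1 : h + hi ≤ h' + lo) (h2 : h + u + hi ≤ h' + u' + lo)
    (hd : d < hi * (g * w)) (hd' : lo * (g * w) ≤ d') :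
    h * (g * w) + u * g * j + d < h' * (g * w) + u' * g * j + d' := by
  have h3 := interp (A := h' + lo - h - hi) (B := u' - u) (w := w) (j := j) (by linarith)
    (by linarith) hj0 hj1
  have h4 := mul_nonneg hg.le h3
  nlinarith

/-- The place of a point of a sub-block. -/
def place (g w : ℤ) (a : (ℤ × ℤ × ℤ) × (ℤ × ℤ × ℤ)) : ℤ × ℤ × ℤ :=
  (a.1.1 * w + a.2.1, a.1.2.1 * (g * w) + a.1.2.2 * g * a.2.1 + a.2.2.1, a.1.2.2 * g + a.2.2.2)

theorem euclid_unique {w a b c d : ℤ} (h : a * w + b = c * w + d) (hb : 0 ≤ b)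
    (hb' : b < w) (hd : 0 ≤ d) (hd' : d < w) : a = c ∧ b = d := by
  have hac : a = c := by
    by_contra hne
    rcases lt_or_gt_of_ne hne with h1 | h1
    · nlinarith [mul_le_mul_of_nonneg_right (show (a + 1) ≤ c by omega) (show 0 ≤ w by omega)]
    · nlinarith [mul_le_mul_of_nonneg_right (show (c + 1) ≤ a by omega) (show 0 ≤ w by omega)]
  subst hac
  exact ⟨rfl, by linarith⟩

theorem place_inj {w g K : ℤ} {U : Finset (ℤ × ℤ × ℤ)} (hg : 0 < g)
    (hU : Blk w (g * w) K U) {c c' p p' : ℤ × ℤ × ℤ} (hc : c ∈ cells) (hc' : c' ∈ cells)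
    (hp : p ∈ U) (hp' : p' ∈ U) (h1 : (place g w (c, p)).1 = (place g w (c', p')).1)
    (h2 : (place g w (c, p)).2.1 = (place g w (c', p')).2.1) : c = c' ∧ p = p' := by
  simp only [place] at h1 h2
  obtain ⟨e1, e2⟩ := euclid_unique h1 (hU.col0 p hp) (hU.col1 p hp) (hU.col0 p' hp')
    (hU.col1 p' hp')
  have k1 := isCell_of_mem hc
  have k2 := isCell_of_mem hc'
  rw [← e1] at k2
  have a0 := hU.col0 p hp
  have a1 := hU.col1 p hp
  have b0 := hU.hgt0 p hp
  have b1 := hU.hgt1 p hp
  have b0' := hU.hgt0 p' hp'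
  have b1' := hU.hgt1 p' hp'
  by_cases hne : c.2.1 = c'.2.1 ∧ c.2.2 = c'.2.2
  · have hcc : c = c' := Prod.ext e1 (Prod.ext hne.1 hne.2)
    refine ⟨hcc, hU.inj p hp p' hp' e2 ?_⟩
    rw [hne.1, hne.2, e2] at h2
    linarith
  · exfalso
    rcases cells_active k1 k2 hne with ⟨h3, h4⟩ | ⟨h3, h4⟩
    · have := sep (h := c.2.1) (u := c.2.2) (h' := c'.2.1) (u' := c'.2.2) (lo := 0) (hi := 1) hg a0
        a1.le (by linarith) (by linarith) (d := p.2.1) (d' := p'.2.1) (by linarith) (by linarith)
      rw [← e2] at h2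
      linarith
    · have := sep (h := c'.2.1) (u := c'.2.2) (h' := c.2.1) (u' := c.2.2) (lo := 0) (hi := 1) hg a0
        a1.le (by linarith) (by linarith) (d := p'.2.1) (d' := p.2.1) (by linarith) (by linarith)
      rw [← e2] at h2
      linarith

theorem step {w g K : ℤ} {U : Finset (ℤ × ℤ × ℤ)} (hw : 1 ≤ w) (hg : 0 < g) (hK : 0 ≤ K)
    (hdev : K * (14 * w) + (14 * w) ^ 2 ≤ g * w) (hU : Blk w (g * w) K U) :
    ∃ V : Finset (ℤ × ℤ × ℤ), V.card = 3856 * U.card ∧
      Blk (14 * w) (1792 * (g * w)) (9 * g + K) V := by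
  classical
  refine ⟨(cells ×ˢ U).image (place g w), ?_, ?_⟩
  · rw [Finset.card_image_of_injOn, Finset.card_product, card_cells]
    intro a ha b hb hab
    simp only [Finset.coe_product, Set.mem_prod, Finset.mem_coe] at ha hb
    have hab' : place g w (a.1, a.2) = place g w (b.1, b.2) := hab
    obtain ⟨h1, h2⟩ := place_inj hg hU ha.1 hb.1 ha.2 hb.2 (congrArg Prod.fst hab')
      (congrArg (fun z => z.2.1) hab')
    exact Prod.ext h1 h2
  -- main facts about one flight
  have key : ∀ c ∈ cells, ∀ p ∈ U, ∀ m e : ℤ, 1 ≤ m → c.1 * w + p.1 + m < 14 * w → 0 ≤ e →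
      e ≤ m ^ 2 → 
      0 ≤ c.2.1 * (g * w) + c.2.2 * g * p.1 + p.2.1 + (c.2.2 * g + p.2.2) * m - e ∧
      c.2.1 * (g * w) + c.2.2 * g * p.1 + p.2.1 + (c.2.2 * g + p.2.2) * m - e < 1792 * (g * w) ∧
      ∀ c' ∈ cells, ∀ q ∈ U, c'.1 * w + q.1 = c.1 * w + p.1 + m →
        c'.2.1 * (g * w) + c'.2.2 * g * q.1 + q.2.1 ≠
          c.2.1 * (g * w) + c.2.2 * g * p.1 + p.2.1 + (c.2.2 * g + p.2.2) * m - e := by
    intro c hc p hp m e hm hlt he he2
    have k1 := isCell_of_mem hc
    obtain ⟨r0, r1, r2, r3, r4, r5⟩ := cells_range k1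
    have a0 := hU.col0 p hp
    have a1 := hU.col1 p hp
    have b0 := hU.hgt0 p hp
    have b1 := hU.hgt1 p hp
    have hv := hU.vel p hp
    set j : ℤ := c.1 * w + p.1 + m with hj
    set j1 : ℤ := j / w with hj1
    set j0 : ℤ := j % w with hj0
    have hw0 : 0 < w := by linarith
    have hjj : j1 * w + j0 = j := by rw [hj1, hj0]; exact Int.ediv_mul_add_emod j w
    have j00 : 0 ≤ j0 := Int.emod_nonneg _ hw0.ne'
    have j01 : j0 < w := Int.emod_lt_of_pos _ hw0
    have hj1lt : j1 < 14 := by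
      by_contra hcon
      nlinarith [mul_le_mul_of_nonneg_right (show (14 : ℤ) ≤ j1 by omega) hw0.le]
    have hj1ge : c.1 ≤ j1 := by
      by_contra hcon
      nlinarith [mul_le_mul_of_nonneg_right (show j1 + 1 ≤ c.1 by omega) hw0.le]
    have hm14 : m ≤ 14 * w := by
      have := mul_nonneg r0 hw0.le
      linarith
    have hgw : 0 < g * w := mul_pos hg hw0
    -- rewriting of the height
    have hT : c.2.1 * (g * w) + c.2.2 * g * p.1 + p.2.1 + (c.2.2 * g + p.2.2) * m - e =
        (c.2.1 + c.2.2 * (j1 - c.1)) * (g * w) + c.2.2 * g * j0 + (p.2.1 + p.2.2 * m - e) := by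
      have : p.1 + m = (j1 - c.1) * w + j0 := by linarith
      have h5 : m = (j1 - c.1) * w + j0 - p.1 := by linarith
      have h6 : c.2.2 * g * p.1 + c.2.2 * g * m = c.2.2 * g * ((j1 - c.1) * w + j0) := by
        rw [← this]; ring
      linarith [h6, show c.2.1 * (g * w) + c.2.2 * g * p.1 + p.2.1 + (c.2.2 * g + p.2.2) * m - e =
        c.2.1 * (g * w) + (c.2.2 * g * p.1 + c.2.2 * g * m) + p.2.1 + p.2.2 * m - e by ring,
        show (c.2.1 + c.2.2 * (j1 - c.1)) * (g * w) + c.2.2 * g * j0 + (p.2.1 + p.2.2 * m - e) =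
        c.2.1 * (g * w) + c.2.2 * g * ((j1 - c.1) * w + j0) + p.2.1 + p.2.2 * m - e by ring]
    rw [hT]
    rcases hj1ge.eq_or_lt with heq | hlt1
    · -- same cell
      rw [← heq, sub_self, mul_zero, add_zero]
      have hj0' : p.1 + m = j0 := by rw [← heq] at hjj; linarith
      have f0 := hU.fly0 p hp m e hm (by linarith) he he2
      have f1 := hU.fly1 p hp m e hm (by linarith) he he2
      refine ⟨?_, ?_, ?_⟩
      · have := interp (A := c.2.1) (B := c.2.2) r2 r3 j00 j01.le
        have := mul_nonneg hg.le this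
        nlinarith
      · have := interp (A := 1792 - c.2.1 - 1) (B := - c.2.2) (by linarith) (by linarith) j00 j01.le
        have := mul_nonneg hg.le this
        nlinarith
      · intro c' hc' q hq hq1 hq2
        rw [← hjj] at hq1
        obtain ⟨e1, e2⟩ := euclid_unique hq1 (hU.col0 q hq) (hU.col1 q hq) j00 j01
        have k2 := isCell_of_mem hc'
        rw [e1, ← heq] at k2
        have b0' := hU.hgt0 q hq
        have b1' := hU.hgt1 q hq
        by_cases hne : c.2.1 = c'.2.1 ∧ c.2.2 = c'.2.2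
        · rw [← hne.1, ← hne.2, e2] at hq2
          exact hU.fly p hp m e hm (by linarith) he he2 q hq (by linarith) (by linarith)
        · rw [e2] at hq2
          rcases cells_active k1 k2 hne with ⟨h3, h4⟩ | ⟨h3, h4⟩
          · have := sep (h := c.2.1) (u := c.2.2) (h' := c'.2.1) (u' := c'.2.2) (lo := 0) (hi := 1)
              hg j00 j01.le (by linarith) (by linarith) (d := p.2.1 + p.2.2 * m - e) (d' := q.2.1)
              (by linarith) (by linarith)
            linarith
          · have := sep (h := c'.2.1) (u := c'.2.2) (h' := c.2.1) (u' := c.2.2) (lo := 0) (hi := 1)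
              hg j00 j01.le (by linarith) (by linarith) (d := q.2.1) (d' := p.2.1 + p.2.2 * m - e)
              (by linarith) (by linarith)
            linarith
    · -- a later slab
      obtain ⟨s0, s1, s2, s3⟩ := cells_range_shadow k1 hlt1 hj1lt
      set X : ℤ := c.2.1 + c.2.2 * (j1 - c.1) with hX
      have hKm : |p.2.2 * m| ≤ K * (14 * w) := by
        rw [abs_mul, abs_of_nonneg (show (0 : ℤ) ≤ m by linarith)]
        exact mul_le_mul hv hm14 (by linarith) hK
      have hm2 : m ^ 2 ≤ (14 * w) ^ 2 := by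
        apply pow_le_pow_left₀ (by linarith) hm14
      have d0 : -(g * w) ≤ p.2.1 + p.2.2 * m - e := by
        have := (abs_le.1 hKm).1
        linarith
      have d1 : p.2.1 + p.2.2 * m - e < 2 * (g * w) := by
        have := (abs_le.1 hKm).2
        have h9 : 0 ≤ (14 * w) ^ 2 := sq_nonneg _
        linarith
      refine ⟨?_, ?_, ?_⟩
      · have := interp (A := X - 1) (B := c.2.2) (by linarith) (by linarith) j00 j01.le
        have := mul_nonneg hg.le this
        nlinarith
      · have := interp (A := 1792 - X - 2) (B := - c.2.2) (by linarith) (by linarith) j00 j01.le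
        have := mul_nonneg hg.le this
        nlinarith
      · intro c' hc' q hq hq1 hq2
        rw [← hjj] at hq1
        obtain ⟨e1, e2⟩ := euclid_unique hq1 (hU.col0 q hq) (hU.col1 q hq) j00 j01
        have k2 := isCell_of_mem hc'
        rw [e1] at k2
        have b0' := hU.hgt0 q hq
        have b1' := hU.hgt1 q hq
        rw [e2] at hq2
        rcases cells_shadow k1 k2 hlt1 with ⟨h3, h4⟩ | ⟨h3, h4⟩
        · have := sep (h := X) (u := c.2.2) (h' := c'.2.1) (u' := c'.2.2) (lo := 0) (hi := 2)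
            hg j00 j01.le (by linarith) (by linarith) (d := p.2.1 + p.2.2 * m - e) (d' := q.2.1)
            (by linarith) (by linarith)
          linarith
        · have := sep (h := c'.2.1) (u := c'.2.2) (h' := X) (u' := c.2.2) (lo := -1) (hi := 1)
            hg j00 j01.le (by linarith) (by linarith) (d := q.2.1) (d' := p.2.1 + p.2.2 * m - e)
            (by linarith) (by linarith)
          linarith
  constructor
  · intro P hP
    obtain ⟨a, ha, rfl⟩ := Finset.mem_image.1 hP
    have hc := (Finset.mem_product.1 ha).1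
    have hp := (Finset.mem_product.1 ha).2
    have r := cells_range (isCell_of_mem hc)
    have := hU.col0 _ hp
    simp only [place]
    nlinarith [mul_nonneg r.1 (show 0 ≤ w by linarith)]
  · intro P hP
    obtain ⟨a, ha, rfl⟩ := Finset.mem_image.1 hP
    have hc := (Finset.mem_product.1 ha).1
    have hp := (Finset.mem_product.1 ha).2
    have r := cells_range (isCell_of_mem hc)
    have := hU.col1 _ hp
    simp only [place]
    nlinarith [mul_le_mul_of_nonneg_right (show a.1.1 ≤ 13 by linarith [r.2.1]) (show 0 ≤ w by linarith)]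
  · intro P hP
    obtain ⟨a, ha, rfl⟩ := Finset.mem_image.1 hP
    have hc := (Finset.mem_product.1 ha).1
    have hp := (Finset.mem_product.1 ha).2
    obtain ⟨r0, r1, r2, r3, r4, r5⟩ := cells_range (isCell_of_mem hc)
    have h0 := hU.hgt0 _ hp
    have := interp (A := a.1.2.1) (B := a.1.2.2) r2 r3 (hU.col0 _ hp) (hU.col1 _ hp).le
    have := mul_nonneg hg.le this
    simp only [place]
    nlinarith
  · intro P hP
    obtain ⟨a, ha, rfl⟩ := Finset.mem_image.1 hP
    have hc := (Finset.mem_product.1 ha).1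
    have hp := (Finset.mem_product.1 ha).2
    obtain ⟨r0, r1, r2, r3, r4, r5⟩ := cells_range (isCell_of_mem hc)
    have h0 := hU.hgt1 _ hp
    have := interp (A := 1792 - a.1.2.1 - 1) (B := -a.1.2.2) (by linarith) (by linarith)
      (hU.col0 _ hp) (hU.col1 _ hp).le
    have := mul_nonneg hg.le this
    simp only [place]
    nlinarith
  · intro P hP
    obtain ⟨a, ha, rfl⟩ := Finset.mem_image.1 hP
    have hc := (Finset.mem_product.1 ha).1
    have hp := (Finset.mem_product.1 ha).2
    have h1 := cells_vel (isCell_of_mem hc)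
    have h2 := hU.vel _ hp
    simp only [place]
    calc |a.1.2.2 * g + a.2.2.2| ≤ |a.1.2.2 * g| + |a.2.2.2| := abs_add_le _ _
      _ ≤ 9 * g + K := by
        rw [abs_mul, abs_of_pos hg]
        have := mul_le_mul_of_nonneg_right h1 hg.le
        linarith
  · intro P hP Q hQ h1 h2
    obtain ⟨a, ha, rfl⟩ := Finset.mem_image.1 hP
    obtain ⟨b, hb, rfl⟩ := Finset.mem_image.1 hQ
    have hc := (Finset.mem_product.1 ha).1
    have hp := (Finset.mem_product.1 ha).2
    have hc' := (Finset.mem_product.1 hb).1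
    have hp' := (Finset.mem_product.1 hb).2
    obtain ⟨h3, h4⟩ := place_inj hg hU hc hc' hp hp' h1 h2
    have : a = b := Prod.ext h3 h4
    rw [this]
  · intro P hP m e hm hlt he he2
    obtain ⟨a, ha, rfl⟩ := Finset.mem_image.1 hP
    have hc := (Finset.mem_product.1 ha).1
    have hp := (Finset.mem_product.1 ha).2
    exact (key _ hc _ hp m e hm hlt he he2).1
  · intro P hP m e hm hlt he he2
    obtain ⟨a, ha, rfl⟩ := Finset.mem_image.1 hP
    have hc := (Finset.mem_product.1 ha).1
    have hp := (Finset.mem_product.1 ha).2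
    exact (key _ hc _ hp m e hm hlt he he2).2.1
  · intro P hP m e hm hlt he he2 Q hQ hq1
    obtain ⟨a, ha, rfl⟩ := Finset.mem_image.1 hP
    obtain ⟨b, hb, rfl⟩ := Finset.mem_image.1 hQ
    have hc := (Finset.mem_product.1 ha).1
    have hp := (Finset.mem_product.1 ha).2
    have hc' := (Finset.mem_product.1 hb).1
    have hp' := (Finset.mem_product.1 hb).2
    exact (key _ hc _ hp m e hm hlt he he2).2.2 _ hc' _ hp' hq1

end Pool.Agent.H27.NK
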